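import Pool.Agent.Q195.CutLoc.Main

/-!
# MP_e92360_gt: increasing half period function does not force cut loci in the opposite meridian
-/

open Set Q195.CutLoc

namespace Pool.Agent.Results.MP_e92360_gt.NotSubarc

/-- There is a smooth 2-sphere of revolution `dr² + m(r)² dθ²`, symmetric under reflection in the
equator and with `m' > 0` on `(0, π/2)`, whose half period function is increasing on
`(0, m(π/2))`, and a point `p` of the half meridian `θ = 0` whose cut locus is not contained in
the opposite half meridian `θ = π`. -/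
theorem result : ∃ m : ℝ → ℝ, IsProfile m ∧
    MonotoneOn (halfPeriod m) (Ioo 0 (m (Real.pi / 2))) ∧
    ∃ r₀ ∈ Ioo 0 Real.pi,
      ¬ (cutLocus m (polar m r₀ 0) ⊆ {q | ∃ r ∈ Ioo 0 Real.pi, q = polar m r Real.pi}) :=
  ⟨Q195.CutLoc.m, isProfile, halfPeriod_mono, main⟩

end Pool.Agent.Results.MP_e92360_gt.NotSubarc
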